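import Pool.Agent.H717.NL.Stmts2

set_option autoImplicit false

/-!
# MP_26b317_lc, Q2: multipoint evaluation of continuants

`t_charval` : `S_prod2` and `S_mpe` imply `S_charval`.
-/

open Polynomial

namespace Pool.Agent.H187.NL

open Pool.Agent.H717.NL

/-- The coefficients of the entries of the transfer matrix at the site `j`; `b j` is the squared
coupling between `j - 1` and `j`. -/
def tc (a b : ℕ → ℝ) (j : ℕ) (r s q : Fin 2) : ℝ :=
  if r = 0 then
    (if s = 0 then (if q = 0 then - a j else 1) else (if q = 0 then - b j else 0))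
  else (if s = 0 then (if q = 0 then 1 else 0) else 0)

/-- The coefficients of the entries of the identity matrix. -/
def ic (r s q : Fin 2) : ℝ := if r = s then (if q = 0 then 1 else 0) else 0

theorem linMat_ic : linMat ic = 1 := by
  ext i j : 1
  fin_cases i <;> fin_cases j <;> simp [linMat, ic]

theorem linMat_tc (a b : ℕ → ℝ) (j : ℕ) :
    linMat (tc a b j) = !![X - C (a j), - C (b j); 1, 0] := by
  ext r s : 1
  fin_cases r <;> fin_cases s <;> simp [linMat, tc]
  ring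

/-- The vector of two consecutive continuants. -/
noncomputable def cv (a c : ℕ → ℝ) : ℕ → Fin 2 → ℝ[X]
  | 0 => ![1, 0]
  | (n + 1) => ![cont a c (n + 1), cont a c n]

theorem cv_zero_apply (a c : ℕ → ℝ) (n : ℕ) : cv a c n 0 = cont a c n := by
  cases n <;> simp [cv, cont]

theorem cv_step (a c : ℕ → ℝ) (n : ℕ) :
    (linMat (tc a (fun j => c (j - 1)) n)).mulVec (cv a c n) = cv a c (n + 1) := by
  rw [linMat_tc]
  cases n with
  | zero =>
    funext i
    fin_cases i <;> simp [cv, cont, Matrix.mulVec, dotProduct, Fin.sum_univ_two]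
  | succ n =>
    funext i
    fin_cases i
    · simp [cv, cont, Matrix.mulVec, dotProduct, Fin.sum_univ_two]
      ring
    · simp [cv, cont, Matrix.mulVec, dotProduct, Fin.sum_univ_two]

theorem prod_cv (a c : ℕ → ℝ) : ∀ (n : ℕ) (M : Fin n → Matrix (Fin 2) (Fin 2) ℝ[X]),
    (∀ i : Fin n, M i = linMat (tc a (fun j => c (j - 1)) (n - 1 - i))) →
    ((List.ofFn M).prod).mulVec ![1, 0] = cv a c n
  | 0, M, _ => by
    simp [cv]
  | n + 1, M, h => by
    rw [List.ofFn_succ, List.prod_cons, ← Matrix.mulVec_mulVec,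
      prod_cv a c n (fun i => M i.succ) (fun i => by
        rw [h i.succ]
        have : n + 1 - 1 - ((i.succ : Fin (n + 1)) : ℕ) = n - 1 - (i : ℕ) := by
          rw [Fin.val_succ]; omega
        rw [this]), h 0]
    have : n + 1 - 1 - ((0 : Fin (n + 1)) : ℕ) = n := by simp
    rw [this]
    exact cv_step a c n

theorem prod_entry (a c : ℕ → ℝ) (n m : ℕ) (hm : m = n + 1)
    (M : Fin m → Matrix (Fin 2) (Fin 2) ℝ[X]) (h0 : ∀ i : Fin m, (i : ℕ) = 0 → M i = 1)
    (h1 : ∀ i : Fin m, (i : ℕ) ≠ 0 → M i = linMat (tc a (fun j => c (j - 1)) (n - i))) :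
    (List.ofFn M).prod 0 0 = cont a c n := by
  subst hm
  have h2 : ((List.ofFn M).prod).mulVec ![1, 0] = cv a c n := by
    rw [List.ofFn_succ, List.prod_cons, h0 0 (by simp), one_mul]
    refine prod_cv a c n (fun i => M i.succ) (fun i => ?_)
    rw [h1 i.succ (by simp)]
    have : n - ((i.succ : Fin (n + 1)) : ℕ) = n - 1 - (i : ℕ) := by
      rw [Fin.val_succ]; omega
    rw [this]
  have h3 := congrFun h2 0
  rw [cv_zero_apply] at h3
  rw [← h3]
  simp [Matrix.mulVec, dotProduct, Fin.sum_univ_two]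

theorem natDegree_cont (a c : ℕ → ℝ) : ∀ n : ℕ, (cont a c n).natDegree ≤ n
  | 0 => by simp [cont]
  | 1 => by
    rw [cont]
    exact natDegree_X_sub_C_le _
  | n + 2 => by
    rw [cont]
    refine (natDegree_sub_le _ _).trans (max_le ?_ ?_)
    · refine natDegree_mul_le.trans ?_
      have h1 := natDegree_cont a c (n + 1)
      have h2 := natDegree_X_sub_C_le (a (n + 1))
      omega
    · refine natDegree_mul_le.trans ?_
      have h1 := natDegree_cont a c n
      have h2 := natDegree_C (c n)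
      omega

theorem toPoly_coeff (P : ℝ[X]) (m : ℕ) (h : P.natDegree < m) :
    toPoly (fun q : Fin m => P.coeff q) = P := by
  rw [toPoly, Fin.sum_univ_eq_sum_range (fun i => C (P.coeff i) * X ^ i) m]
  exact (P.as_sum_range_C_mul_X_pow' h).symm

/-- An extended coordinate costs at most three operations. -/
theorem cmp_ext {α : Type} [Vec α] {n : ℕ} {f : α → Fin n → ℝ} (hf : Cmp f 0) (j : ℕ) :
    Cmp (fun p => ext (f p) j) 3 := by
  by_cases h : j < n
  · have h1 : Cmp (fun p : α => f p ⟨j, h⟩) 0 := hf.on (Cmp.proj (α := ℝ) ⟨j, h⟩)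
    refine (h1.mono (by omega)).congr fun p => ?_
    simp [H717.NL.ext, h]
  · refine (Cmp.zero (α := α)).congr fun p => ?_
    simp [H717.NL.ext, h]

theorem cmp_tc {α : Type} [Vec α] {n : ℕ} {f g : α → Fin n → ℝ} (hf : Cmp f 0) (hg : Cmp g 0)
    (j : ℕ) (r s q : Fin 2) :
    Cmp (fun p => tc (ext (f p)) (fun j => ext (g p) (j - 1)) j r s q) 7 := by
  have hz : Cmp (fun _ : α => (0 : ℝ)) 7 := (Cmp.zero (α := α)).mono (by omega)
  have ho : Cmp (fun _ : α => (1 : ℝ)) 7 := (Cmp.one (α := α)).mono (by omega)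
  unfold tc
  split_ifs
  · exact (cmp_ext hf j).neg'
  · exact ho
  · exact (cmp_ext hg (j - 1)).neg'
  · exact hz
  · exact ho
  · exact hz
  · exact hz

theorem cmp_ic {α : Type} [Vec α] (r s q : Fin 2) : Cmp (fun _ : α => ic r s q) 7 := by
  have hz : Cmp (fun _ : α => (0 : ℝ)) 7 := (Cmp.zero (α := α)).mono (by omega)
  have ho : Cmp (fun _ : α => (1 : ℝ)) 7 := (Cmp.one (α := α)).mono (by omega)
  unfold ic
  split_ifs
  · exact ho
  · exact hz
  · exact hz

/-- The `2 ^ k` matrices whose product contains the continuant. -/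
def ms {n : ℕ} (m : ℕ) (a c : Fin n → ℝ) (i : Fin m) (r s q : Fin 2) : ℝ :=
  if (i : ℕ) = 0 then ic r s q
    else tc (ext a) (fun j => ext c (j - 1)) (n - i) r s q

theorem cmp_ms {α : Type} [Vec α] {n m : ℕ} {f g : α → Fin n → ℝ} (hf : Cmp f 0)
    (hg : Cmp g 0) : Cmp (fun p : α => ms m (f p) (g p)) (m * 56) := by
  refine Cmp.pi fun i => ?_
  refine (Cmp.pi (c := 28) fun r => ?_).mono (by omega)
  refine (Cmp.pi (c := 14) fun s => ?_).mono (by omega)
  refine (Cmp.pi (c := 7) fun q => ?_).mono (by omega)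
  unfold ms
  split_ifs
  · exact cmp_ic r s q
  · exact cmp_tc hf hg _ r s q

theorem t_charval (h1 : S_prod2) (h2 : S_mpe) : S_charval := by
  obtain ⟨K1, h1⟩ := h1
  obtain ⟨K2, h2⟩ := h2
  refine ⟨59 + K1 + K2, fun k => ?_⟩
  have hpos : 0 < 2 ^ k := Nat.two_pow_pos k
  let P := ((Fin (2 ^ k - 1) → ℝ) × (Fin (2 ^ k - 1) → ℝ)) × (Fin (2 ^ k - 1) → ℝ)
  have f1 : Cmp (fun p : P => p.1.1) 0 := (Cmp.fst).on Cmp.fst
  have f2 : Cmp (fun p : P => p.1.2) 0 := (Cmp.fst).on Cmp.snd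
  have f3 : Cmp (fun p : P => p.2) 0 := Cmp.snd
  -- the coefficients
  have g1 : Cmp (fun p : P => ms (2 ^ k) p.1.1 p.1.2) (2 ^ k * 56) := cmp_ms f1 f2
  have g2 := (g1.comp (h1 k)).comp (Cmp.proj (0 : Fin 2))
  have g3 := g2.comp (Cmp.proj (0 : Fin 2))
  have g4 := g3.comp (Cmp.reindex (α := ℝ) (fun q : Fin (2 ^ k) => q.castSucc))
  -- the points
  have e1 : Cmp (fun p : P => fun j : Fin (2 ^ k) => ext p.2 j) (2 ^ k * 3) :=
    Cmp.pi fun j => cmp_ext f3 j
  have e2 := ((g4.pair e1).comp (h2 k (2 ^ k) le_rfl)).comp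
    (Cmp.reindex (α := ℝ) (fun j : Fin (2 ^ k - 1) => (⟨j, by omega⟩ : Fin (2 ^ k))))
  refine (e2.mono ?_).congr fun p => ?_
  · have hk : (k + 1) ^ 3 ≤ (k + 1) ^ 4 := Nat.pow_le_pow_right (by omega) (by omega)
    have hk1 : 1 ≤ (k + 1) ^ 4 := Nat.one_le_pow _ _ (by omega)
    have q1 : K1 * 2 ^ k * (k + 1) ^ 3 ≤ K1 * 2 ^ k * (k + 1) ^ 4 := Nat.mul_le_mul_left _ hk
    have q2 : 59 * 2 ^ k * 1 ≤ 59 * 2 ^ k * (k + 1) ^ 4 := Nat.mul_le_mul_left _ hk1
    have q3 : (59 + K1 + K2) * 2 ^ k * (k + 1) ^ 4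
        = 59 * 2 ^ k * (k + 1) ^ 4 + K1 * 2 ^ k * (k + 1) ^ 4 + K2 * 2 ^ k * (k + 1) ^ 4 := by
      ring
    rw [q3]
    omega
  · funext j
    have hp : (List.ofFn fun i => linMat (ms (2 ^ k) p.1.1 p.1.2 i)).prod 0 0
        = cont (ext p.1.1) (ext p.1.2) (2 ^ k - 1) := by
      refine prod_entry _ _ (2 ^ k - 1) (2 ^ k) (by omega) _ (fun i hi => ?_) (fun i hi => ?_)
      · have : ms (2 ^ k) p.1.1 p.1.2 i = ic := by
          funext r s q
          simp [ms, hi]
        rw [this, linMat_ic]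
      · have : ms (2 ^ k) p.1.1 p.1.2 i
            = tc (ext p.1.1) (fun j => ext p.1.2 (j - 1)) (2 ^ k - 1 - i) := by
          funext r s q
          simp [ms, hi]
        rw [this]
    have hq : toPoly (fun q : Fin (2 ^ k) =>
        ((List.ofFn fun i => linMat (ms (2 ^ k) p.1.1 p.1.2 i)).prod 0 0).coeff
          ((q.castSucc : Fin (2 ^ k + 1)) : ℕ)) = cont (ext p.1.1) (ext p.1.2) (2 ^ k - 1) := by
      rw [hp]
      simp only [Fin.val_castSucc]
      refine toPoly_coeff _ _ ?_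
      have := natDegree_cont (ext p.1.1) (ext p.1.2) (2 ^ k - 1)
      omega
    show (toPoly (fun q : Fin (2 ^ k) =>
        ((List.ofFn fun i => linMat (ms (2 ^ k) p.1.1 p.1.2 i)).prod 0 0).coeff
          ((q.castSucc : Fin (2 ^ k + 1)) : ℕ))).eval (ext p.2 (j : ℕ)) = _
    rw [hq]
    congr 1
    simp [H717.NL.ext]

end Pool.Agent.H187.NL
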